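import Pool.Agent.Q170.CheegUp

/-!
# MP_4eea03_an, Q1: for even `n ≥ 24` the regular `n`-gon is not optimal
-/

open Set MeasureTheory Real Pool.Agent.Q170.Cheeg
open scoped ENNReal

namespace Pool.Agent.Results.MP_4eea03_an.RegularNotOptimal

/-- radius of the two large circles -/
noncomputable def R : ℝ := 499001 / 1000

/-- half side of the small square -/
noncomputable def c : ℝ := 999 / 1000

/-- the arc `(F w + R - 1)² + w² = R²` -/
noncomputable def F (w : ℝ) : ℝ := √(R ^ 2 - w ^ 2) - (R - 1)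

theorem F_eq {w : ℝ} (hw : |w| ≤ c) : (F w + (R - 1)) ^ 2 + w ^ 2 = R ^ 2 := by
  have h : w ^ 2 ≤ c ^ 2 := by
    rw [← sq_abs w]
    exact pow_le_pow_left₀ (abs_nonneg _) hw 2
  unfold F
  rw [sub_add_cancel, Real.sq_sqrt]
  · ring
  · unfold c at h; unfold R; linarith

theorem F_le (w : ℝ) : F w ≤ 1 := by
  unfold F
  have : √(R ^ 2 - w ^ 2) ≤ R := by
    rw [Real.sqrt_le_left (by unfold R; norm_num)]
    nlinarith [sq_nonneg w]
  linarith

theorem F_pos {w : ℝ} (hw : |w| ≤ c) : 0 < F w := by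
  have h : w ^ 2 ≤ c ^ 2 := by
    rw [← sq_abs w]
    exact pow_le_pow_left₀ (abs_nonneg _) hw 2
  unfold F
  have : R - 1 < √(R ^ 2 - w ^ 2) := by
    apply Real.lt_sqrt_of_sq_lt
    unfold c at h; unfold R; norm_num at h ⊢; linarith
  linarith

theorem F_c : F c = c := by
  unfold F
  have h : √(R ^ 2 - c ^ 2) = 499 := by
    have : R ^ 2 - c ^ 2 = 499 ^ 2 := by unfold R c; norm_num
    rw [this, Real.sqrt_sq (by norm_num)]
  rw [h]; unfold R c; norm_num

theorem F_neg (w : ℝ) : F (-w) = F w := by unfold F; rw [neg_sq]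

/-- the ordinates of the vertices on the right arc -/
noncomputable def ord (M : ℕ) (j : Fin M) : ℝ := c * (2 * (j : ℝ) / (M - 1) - 1)

theorem ord_abs {M : ℕ} (hM : 2 ≤ M) (j : Fin M) : |ord M j| ≤ c := by
  have hM' : (2:ℝ) ≤ M := by exact_mod_cast hM
  have hc : (0:ℝ) < c := by unfold c; norm_num
  have h1 : (0:ℝ) ≤ j := Nat.cast_nonneg _
  have h2 : (j:ℝ) ≤ M - 1 := by
    have : (j:ℕ) + 1 ≤ M := j.2
    have : ((j:ℕ):ℝ) + 1 ≤ M := by exact_mod_cast this
    linarith
  have h3 : 0 ≤ 2 * (j : ℝ) / (M - 1) := div_nonneg (by linarith) (by linarith)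
  have h4 : 2 * (j : ℝ) / (M - 1) ≤ 2 := by
    rw [div_le_iff₀ (by linarith)]; linarith
  unfold ord
  rw [abs_le]
  constructor <;> nlinarith

theorem ord_inj {M : ℕ} (hM : 2 ≤ M) {i j : Fin M} (h : ord M i = ord M j) : i = j := by
  have hM' : (2:ℝ) ≤ M := by exact_mod_cast hM
  have hc : c ≠ 0 := by unfold c; norm_num
  unfold ord at h
  have h1 := mul_left_cancel₀ hc h
  have h2 : 2 * (i : ℝ) / (M - 1) = 2 * (j : ℝ) / (M - 1) := by linarith
  rw [div_left_inj' (by linarith)] at h2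
  have h3 : (i : ℝ) = j := by linarith
  apply Fin.ext
  exact_mod_cast h3

/-- The vertices. -/
noncomputable def vtx (M : ℕ) (i : Bool × Fin M) : ℝ × ℝ :=
  if i.1 then (F (ord M i.2), ord M i.2) else (-F (ord M i.2), -ord M i.2)

theorem vtx_inj {M : ℕ} (hM : 2 ≤ M) : Function.Injective (vtx M) := by
  rintro ⟨b, i⟩ ⟨b', j⟩ h
  have hi := F_pos (ord_abs hM i)
  have hj := F_pos (ord_abs hM j)
  cases b <;> cases b' <;> simp only [vtx, if_true, if_false, Bool.false_eq_true, Prod.mk.injEq] at h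
  · have := ord_inj hM (neg_injective h.2)
    rw [this]
  · exfalso; linarith [h.1]
  · exfalso; linarith [h.1]
  · have := ord_inj hM h.2
    rw [this]

/-- The square of the distance to the centre of the left or right circle. -/
noncomputable def q (s : ℝ) (p : ℝ × ℝ) : ℝ := (p.1 + s * (R - 1)) ^ 2 + p.2 ^ 2

theorem q_conv (s : ℝ) (x y : ℝ × ℝ) (a b : ℝ) (hab : a + b = 1) :
    q s (a • x + b • y) = a * q s x + b * q s y -
      a * b * ((x.1 - y.1) ^ 2 + (x.2 - y.2) ^ 2) := by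
  have hb : b = 1 - a := by linarith
  subst hb
  unfold q
  simp only [Prod.fst_add, Prod.snd_add, Prod.smul_fst, Prod.smul_snd, smul_eq_mul]
  ring

theorem q_convex (s : ℝ) : Convex ℝ {p | q s p ≤ R ^ 2} := by
  intro x hx y hy a b ha hb hab
  have hx : q s x ≤ R ^ 2 := hx
  have hy : q s y ≤ R ^ 2 := hy
  change q s (a • x + b • y) ≤ R ^ 2
  rw [q_conv s x y a b hab]
  have h1 : a * q s x ≤ a * R ^ 2 := mul_le_mul_of_nonneg_left hx ha
  have h2 : b * q s y ≤ b * R ^ 2 := mul_le_mul_of_nonneg_left hy hb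
  have h3 : 0 ≤ a * b * ((x.1 - y.1) ^ 2 + (x.2 - y.2) ^ 2) := by positivity
  have h4 : a * R ^ 2 + b * R ^ 2 = R ^ 2 := by rw [← add_mul, hab, one_mul]
  linarith

theorem q_vtx {M : ℕ} (hM : 2 ≤ M) {s : ℝ} (hs : s = 1 ∨ s = -1) (i : Bool × Fin M) :
    q s (vtx M i) ≤ R ^ 2 := by
  have h1 := F_eq (ord_abs hM i.2)
  have h2 := F_pos (ord_abs hM i.2)
  have hR : 0 < R - 1 := by unfold R; norm_num
  unfold q vtx
  rcases hs with rfl | rfl <;> split_ifs <;> simp only <;> nlinarith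

theorem vtx_extreme {M : ℕ} (hM : 2 ≤ M) (i : Bool × Fin M) :
    vtx M i ∈ (convexHull ℝ (range (vtx M))).extremePoints ℝ := by
  have key : ∀ s : ℝ, (s = 1 ∨ s = -1) → q s (vtx M i) = R ^ 2 →
      vtx M i ∈ (convexHull ℝ (range (vtx M))).extremePoints ℝ := by
    intro s hs hq
    have hsub : convexHull ℝ (range (vtx M)) ⊆ {p | q s p ≤ R ^ 2} := by
      apply convexHull_min _ (q_convex s)
      rintro _ ⟨j, rfl⟩
      exact q_vtx hM hs j
    refine ⟨subset_convexHull ℝ _ ⟨i, rfl⟩, ?_⟩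
    intro x hx y hy hxy
    obtain ⟨a, b, ha, hb, hab, he⟩ := hxy
    have hqx : q s x ≤ R ^ 2 := hsub hx
    have hqy : q s y ≤ R ^ 2 := hsub hy
    rw [← he, q_conv s x y a b hab] at hq
    have h1 : a * q s x ≤ a * R ^ 2 := mul_le_mul_of_nonneg_left hqx ha.le
    have h2 : b * q s y ≤ b * R ^ 2 := mul_le_mul_of_nonneg_left hqy hb.le
    have h4 : a * R ^ 2 + b * R ^ 2 = R ^ 2 := by rw [← add_mul, hab, one_mul]
    have h5 : a * b * ((x.1 - y.1) ^ 2 + (x.2 - y.2) ^ 2) ≤ 0 := by linarith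
    have h6 : (x.1 - y.1) ^ 2 + (x.2 - y.2) ^ 2 ≤ 0 := by
      by_contra hcon
      push Not at hcon
      have := mul_pos (mul_pos ha hb) hcon
      linarith
    have h7 : x.1 = y.1 := by nlinarith [sq_nonneg (x.1 - y.1), sq_nonneg (x.2 - y.2)]
    have h8 : x.2 = y.2 := by nlinarith [sq_nonneg (x.1 - y.1), sq_nonneg (x.2 - y.2)]
    have h9 : x = y := Prod.ext h7 h8
    rw [← he, ← h9, ← add_smul, hab, one_smul]
  have h1 := F_eq (ord_abs hM i.2)
  by_cases hb : i.1 = true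
  · apply key 1 (Or.inl rfl)
    unfold q vtx
    rw [if_pos hb]
    simp only [one_mul]
    exact h1
  · apply key (-1) (Or.inr rfl)
    unfold q vtx
    rw [if_neg hb]
    simp only
    nlinarith

/-- The polygon. -/
noncomputable def P (M : ℕ) : Set (ℝ × ℝ) := interior (convexHull ℝ (range (vtx M)))

theorem closed_hull (M : ℕ) : IsClosed (convexHull ℝ (range (vtx M))) :=
  (Set.finite_range (vtx M)).isClosed_convexHull ℝ

theorem square_sub {M : ℕ} (hM : 2 ≤ M) : Icc (-c) c ×ˢ Icc (-c) c ⊆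
    convexHull ℝ (range (vtx M)) := by
  have hM' : (2:ℝ) ≤ M := by exact_mod_cast hM
  have hc : (0:ℝ) < c := by unfold c; norm_num
  have h1 : Icc (-c) c = convexHull ℝ ({-c, c} : Set ℝ) := by
    rw [convexHull_pair, segment_eq_Icc (by linarith)]
  rw [h1, ← convexHull_prod]
  apply convexHull_mono
  have o0 : ord M ⟨0, by omega⟩ = -c := by unfold ord; simp
  have o1 : ord M ⟨M - 1, by omega⟩ = c := by
    unfold ord
    have : ((M - 1 : ℕ) : ℝ) = M - 1 := by
      rw [Nat.cast_sub (by omega)]; simp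
    simp only [this]
    have h2 : (M:ℝ) - 1 ≠ 0 := by linarith
    field_simp
    ring
  have F0 : F (-c) = c := by rw [F_neg, F_c]
  rintro ⟨x, y⟩ ⟨hx, hy⟩
  simp only [mem_insert_iff, mem_singleton_iff] at hx hy
  rcases hx with rfl | rfl <;> rcases hy with rfl | rfl
  · exact ⟨(false, ⟨M - 1, by omega⟩), by simp [vtx, o1, F_c]⟩
  · exact ⟨(false, ⟨0, by omega⟩), by simp [vtx, o0, F0]⟩
  · exact ⟨(true, ⟨0, by omega⟩), by simp [vtx, o0, F0]⟩
  · exact ⟨(true, ⟨M - 1, by omega⟩), by simp [vtx, o1, F_c]⟩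

theorem open_square {M : ℕ} (hM : 2 ≤ M) {s t : ℝ} (hs : |s| < c) (ht : |t| < c) :
    (s, t) ∈ P M := by
  unfold P
  rw [mem_interior]
  refine ⟨Ioo (-c) c ×ˢ Ioo (-c) c, ?_, isOpen_Ioo.prod isOpen_Ioo, ⟨abs_lt.1 hs, abs_lt.1 ht⟩⟩
  exact (prod_mono Ioo_subset_Icc_self Ioo_subset_Icc_self).trans (square_sub hM)

theorem zero_mem {M : ℕ} (hM : 2 ≤ M) : (0 : ℝ × ℝ) ∈ P M := by
  have hc : (0:ℝ) < c := by unfold c; norm_num
  exact open_square hM (s := 0) (t := 0) (by simpa using hc) (by simpa using hc)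

theorem closure_P {M : ℕ} (hM : 2 ≤ M) : closure (P M) = convexHull ℝ (range (vtx M)) := by
  unfold P
  rw [(convex_convexHull ℝ _).closure_interior_eq_closure_of_nonempty_interior
    ⟨0, zero_mem hM⟩, (closed_hull M).closure_eq]

theorem hull_bound {M : ℕ} (hM : 2 ≤ M) : convexHull ℝ (range (vtx M)) ⊆
    Icc (-1) 1 ×ˢ Icc (-1) 1 := by
  apply convexHull_min _ ((convex_Icc _ _).prod (convex_Icc _ _))
  rintro _ ⟨i, rfl⟩
  have h0 := F_pos (ord_abs hM i.2)
  have h1 := F_le (ord M i.2)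
  have h2 := abs_le.1 (ord_abs hM i.2)
  have hc : c < 1 := by unfold c; norm_num
  unfold vtx
  split_ifs
  · exact ⟨⟨by linarith, h1⟩, ⟨by linarith [h2.1], by linarith [h2.2]⟩⟩
  · exact ⟨⟨by linarith, by linarith⟩, ⟨by linarith [h2.2], by linarith [h2.1]⟩⟩

theorem isNgon {M : ℕ} (hM : 2 ≤ M) : IsSymNgon (2 * M) (P M) := by
  refine ⟨by omega, isOpen_interior, ⟨0, zero_mem hM⟩, ?_, (convex_convexHull ℝ _).interior,
    ?_, ?_⟩
  · apply Bornology.IsBounded.subset _ interior_subset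
    rw [isBounded_convexHull]
    exact (Set.finite_range _).isBounded
  · intro x hx
    have hneg : -range (vtx M) = range (vtx M) := by
      ext z
      rw [Set.mem_neg]
      constructor
      · rintro ⟨⟨b, i⟩, h⟩
        refine ⟨(!b, i), ?_⟩
        rw [← neg_neg z, ← h]
        cases b <;> simp [vtx]
      · rintro ⟨⟨b, i⟩, h⟩
        refine ⟨(!b, i), ?_⟩
        rw [← h]
        cases b <;> simp [vtx]
    have h1 : -convexHull ℝ (range (vtx M)) = convexHull ℝ (range (vtx M)) := by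
      rw [← convexHull_neg, hneg]
    have h2 : -P M = P M := by
      unfold P
      have h3 := (Homeomorph.neg (ℝ × ℝ)).preimage_interior (convexHull ℝ (range (vtx M)))
      have h4 : (Homeomorph.neg (ℝ × ℝ)) ⁻¹' (convexHull ℝ (range (vtx M))) =
          convexHull ℝ (range (vtx M)) := h1
      rw [h4] at h3
      exact h3
    rw [← h2]
    exact Set.neg_mem_neg.2 hx
  · rw [closure_P hM]
    have h1 : (convexHull ℝ (range (vtx M))).extremePoints ℝ = range (vtx M) := by
      apply Subset.antisymm extremePoints_convexHull_subset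
      rintro _ ⟨i, rfl⟩
      exact vtx_extreme hM i
    rw [h1, ← image_univ, ncard_image_of_injective _ (vtx_inj hM), ncard_univ,
      Nat.card_eq_fintype_card]
    simp [Fintype.card_prod]

theorem numeric {n : ℕ} (hn : 24 ≤ n) : 96 / 13 / 2.98 * (√2 / c) < 2 * (cos (π / n) * √π) := by
  have hn' : (24:ℝ) ≤ n := by exact_mod_cast hn
  have hπ1 := Real.pi_gt_d4
  have hπ2 := Real.pi_lt_d4
  have h1 : 1 - (π / n) ^ 2 / 2 ≤ cos (π / n) := Real.one_sub_sq_div_two_le_cos
  have h2 : π / n ≤ 0.1309 := by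
    rw [div_le_iff₀ (by linarith)]
    nlinarith
  have h3 : 0 ≤ π / n := by positivity
  have h4 : 0.99143 ≤ cos (π / n) := by nlinarith
  have h5 : 1.77242 < √π := by
    apply Real.lt_sqrt_of_sq_lt
    norm_num
    linarith
  have h6 : √2 < 1.41422 := by
    rw [Real.sqrt_lt' (by norm_num)]; norm_num
  have h7 : (0.99143 : ℝ) * 1.77242 ≤ cos (π / n) * √π :=
    mul_le_mul h4 h5.le (by norm_num) (by linarith)
  unfold c
  have h8 : (96 / 13 / 2.98 : ℝ) * (√2 / (999 / 1000)) < 96 / 13 / 2.98 * (1.41422 / (999 / 1000)) := by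
    apply mul_lt_mul_of_pos_left _ (by norm_num)
    apply div_lt_div_of_pos_right h6 (by norm_num)
  refine h8.trans ?_
  refine lt_of_lt_of_le ?_ (mul_le_mul_of_nonneg_left h7 (by norm_num))
  norm_num

/-- **MP_4eea03_an, Q1** (negated form): for every even `n ≥ 24` some open centrally symmetric
convex `n`-gon has a smaller value of `J_B` than the regular `n`-gon. -/
theorem result (n : ℕ) (hn : Even n) (hn24 : 24 ≤ n) :
    ∃ P : Set (ℝ × ℝ), IsSymNgon n P ∧ J B P < J B (regular n) := by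
  obtain ⟨M, hM⟩ := hn
  have hM2 : 2 ≤ M := by omega
  refine ⟨P M, ?_, ?_⟩
  · have := isNgon hM2
    rwa [two_mul, ← hM] at this
  · have hc : (0:ℝ) < c := by unfold c; norm_num
    have hbd : ∀ p ∈ closure (P M), |p.1| ≤ 1 ∧ |p.2| ≤ 1 := by
      intro p hp
      rw [closure_P hM2] at hp
      have := hull_bound hM2 hp
      exact ⟨abs_le.2 this.1, abs_le.2 this.2⟩
    have h1 := upper hbd hc (fun s t hs ht => open_square hM2 hs ht)
    have h2 := lower (n := n) (by omega)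
    refine lt_of_le_of_lt h1 (lt_of_lt_of_le ?_ h2)
    rw [ENNReal.ofReal_lt_ofReal_iff_of_nonneg (by positivity)]
    exact numeric hn24

end Pool.Agent.Results.MP_4eea03_an.RegularNotOptimal
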